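import Pool.Agent.H64.SEP.GGX

/-!
Project SEP, modules GB1, GVL, GB2, GB4, GB5: the branches of the indices in the extension.
-/

set_option autoImplicit false
set_option linter.unusedVariables false
set_option synthInstance.maxSize 100000

namespace SW.SEP

open SW

section
variable {M : Type} [SetStr M] [ZFC M] [Countable M] {I : M} {G : M → Prop}

/-- the set of pairs is single valued, and its members are pairs -/
theorem gb_fnc (hPS : PSFStmt) (hSQ : SQFStmt) (hTE : TEFStmt) (hGG : GGXStmt)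
    (hI : Sy I) (hG : Gen (PF I) G) [ZFC (Ext (PF I) G)] (e : M)
    (htot : ∀ n, E n om → ∃ p v, G p ∧ E (lV e v) p ∧ E n (dmn v)) :
    Fnc om LL (Br (gg I G) (emb (PF I) G e)) := by
  have hT : TEmb (emb (PF I) G) := ggx_temb hG
  have TE := hTE M (Ext (PF I) G) _ hT
  have ps := hPS M
  have sq := hSQ M
  have gf := hGG M I G hI hG
  refine ⟨?_, ?_, ?_⟩
  · intro z hz
    unfold Br at hz
    rw [mem_sep] at hz
    obtain ⟨a, b, ha, hb, e1⟩ := mem_prod'.1 hz.1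
    exact ⟨a, b, ha, hb, e1⟩
  · intro x hx
    obtain ⟨n, hn, rfl⟩ := gf.mo hx
    obtain ⟨p, v, hp, hv, hnd⟩ := htot n hn
    obtain ⟨y, hy⟩ := mem_dmn.1 hnd
    refine ⟨emb (PF I) G y, gf.br.2 ⟨p, v, _, hp, hv, hy, ?_⟩⟩
    rw [TE.opair]
  · intro x y y' h h'
    obtain ⟨p, v, z, hp, hv, hz, e1⟩ := gf.br.1 h
    obtain ⟨p', v', z', hp', hv', hz', e1'⟩ := gf.br.1 h'
    obtain ⟨r, hr, hrp, hrp'⟩ := hG.dir p p' hp hp'
    have hrP := mem_PS.1 (hG.sub r hr)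
    have hrP' : E r (PS I) := hG.sub r hr
    have h1 : E (lV e v) r := hrp _ hv
    have h2 : E (lV e v') r := hrp' _ hv'
    have hw : ∃ w, E w NDS ∧ E z w ∧ E z' w := by
      rcases hrP.2.2.1 e v v' h1 h2 with h3 | h3
      · exact ⟨v', (ps.lVm hrP' h2).2, h3 _ hz, hz'⟩
      · exact ⟨v, (ps.lVm hrP' h1).2, hz, h3 _ hz'⟩
    obtain ⟨w, hw, hzw, hzw'⟩ := hw
    obtain ⟨hd, hF⟩ := sq.dm hw
    obtain ⟨n, a, hn, ha, rfl⟩ := hF.1 z hzw
    obtain ⟨n', a', hn', ha', rfl⟩ := hF.1 z' hzw'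
    rw [TE.opair, opair_inj] at e1 e1'
    have e2 : n = n' := hT.inj _ _ (e1.1.symm.trans e1'.1)
    subst e2
    rw [e1.2, e1'.2, hF.2.2 _ _ _ hzw hzw']

end

/-- GB1 -/
theorem sep_gb1 (hPS : PSFStmt) (hSQ : SQFStmt) (hTE : TEFStmt) (hGG : GGXStmt)
    (hEX : EXNStmt) : GB1Stmt := by
  intro M _ _ _ I e G hI hG he hnc _
  have hT : TEmb (emb (PF I) G) := ggx_temb hG
  have TE := hTE M (Ext (PF I) G) _ hT
  have ps := hPS M
  have gf := hGG M I G hI hG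
  refine ⟨gb_fnc hPS hSQ hTE hGG hI hG e ?_, ?_⟩
  · intro n hn
    obtain ⟨p, hp, v, hv⟩ := (genF hG).meetC (fun q => ∃ v, E (lV e v) q ∧ E n (dmn v))
      inferInstance (fun p hp => by
        obtain ⟨q, v, hq, hpq, hv, hnv, _⟩ := hEX M I p e n hI hp he hnc hn
        exact ⟨q, hq, hpq, v, hv, hnv⟩)
    exact ⟨p, v, hp, hv.1, hv.2⟩
  · intro n a h
    obtain ⟨p, v, z, hp, hv, hz, e1⟩ := gf.br.1 h
    have hpP := mem_PS.1 (hG.sub p hp)
    obtain ⟨hd, hF⟩ := (hSQ M).dm (ps.lVm (hG.sub p hp) hv).2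
    obtain ⟨n0, a0, hn, ha, rfl⟩ := hF.1 z hz
    obtain ⟨c, hc, rfl⟩ := hpP.2.2.2.2.1 e v hv hnc n0 a0 hz
    rw [TE.opair, opair_inj] at e1
    refine ⟨emb (PF I) G c, ?_, ?_⟩
    · rw [← TE.om, hT.mem]; exact hc
    · rw [e1.2, TE.nonc]

/-- GVL -/
theorem sep_gvl (hAT : ATMStmt) (hPS : PSFStmt) (hTE : TEFStmt) (hVL : VLXStmt) : GVLStmt := by
  intro M _ _ _ I B r q x i t G hI hG hc hq _
  have hT : TEmb (emb (PF I) G) := ggx_temb hG
  have TE := hTE M (Ext (PF I) G) _ hT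
  have ps := hPS M
  obtain ⟨hCb, hClB, hBI, hSB, hrB, hnc, hqB, hNm, hTot, hFun, hi⟩ := (hAT M).sycd hI hc
  have vl := hVL M B (prod om om) x G hNm I hG
  have hom : ∀ {a : M}, E (emb (PF I) G a) om ↔ E a om := fun {a} => by
    rw [← TE.om, hT.mem]
  have hxm : ∀ {q' a : M}, E (opair q' a) x → E q' (PS B) ∧ E a (prod om om) := by
    intro q' a h
    obtain ⟨q1, a1, h1, h2, h3⟩ := hNm.2 _ h
    rw [opair_inj] at h3
    rw [h3.1, h3.2]; exact ⟨h1, h2⟩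
  refine ⟨?_, ?_, ?_⟩
  · intro z hz
    obtain ⟨q', a, h1, h2, rfl⟩ := (vl z).1 hz
    obtain ⟨n, m, hn, hm, rfl⟩ := mem_prod'.1 (hxm h1).2
    exact ⟨_, _, hom.2 hn, hom.2 hm, TE.opair⟩
  · intro n' hn'
    rw [← TE.om] at hn'
    obtain ⟨n, hn, rfl⟩ := TE.mem'.1 hn'
    obtain ⟨p, hp, _, q', a, hq', ha⟩ := (genF hG).meetB
      (fun s => ∃ q' a, Sub q' s ∧ E (opair q' (opair n a)) x) inferInstance q hq
      (fun p hp hqp => by
        have h1 : E (rJ B p) (PS B) := ps.rst hI hSB hp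
        have h2 : Sub q (rJ B p) := by
          rw [← ps.rself hqB (Sub.refl B)]
          exact ps.rmono hqp
        obtain ⟨r', q', a, hr', hrr, hq', ha⟩ := hTot _ h1 h2 n hn
        have h3 := ps.ama hI hSB hp hr' hrr
        have h4 : bun I B = I := ext fun z => by
          rw [mem_bun]
          exact ⟨fun h => h.elim id (fun h => hBI _ h), Or.inl⟩
        rw [h4] at h3
        exact ⟨bun p r', h3, fun z hz => mem_bun.2 (Or.inl hz), q', a,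
          fun z hz => mem_bun.2 (Or.inr (hq' z hz)), ha⟩)
    refine ⟨emb (PF I) G a, (vl _).2 ⟨q', opair n a, ha, ?_, TE.opair.symm⟩⟩
    exact hG.up p q' hp (ps.mono hBI (hxm ha).1) hq'
  · intro n' y y' h h'
    obtain ⟨q1, a1, h1, h2, e1⟩ := (vl _).1 h
    obtain ⟨q2, a2, h3, h4, e2⟩ := (vl _).1 h'
    obtain ⟨n1, m1, hn1, hm1, rfl⟩ := mem_prod'.1 (hxm h1).2
    obtain ⟨n2, m2, hn2, hm2, rfl⟩ := mem_prod'.1 (hxm h3).2
    rw [TE.opair, opair_inj] at e1 e2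
    have e3 : n1 = n2 := hT.inj _ _ (e1.1.symm.trans e2.1)
    subst e3
    obtain ⟨s, hs, hs1, hs2⟩ := hG.dir q1 q2 h2 h4
    obtain ⟨s', hs', hs1', hs2'⟩ := hG.dir s q hs hq
    have hsP : E s' (PS I) := hG.sub s' hs'
    have k : ∀ u, E u (PS B) → Sub u s' → Sub u (rJ B s') := by
      intro u hu hus
      rw [← ps.rself hu (Sub.refl B)]
      exact ps.rmono hus
    have h5 := hFun _ (ps.rst hI hSB hsP) (k q hqB hs2') q1 q2 n1 m1 m2
      (k q1 (hxm h1).1 (Sub.trans hs1 hs1')) (k q2 (hxm h3).1 (Sub.trans hs2 hs1')) h1 h3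
    rw [e1.2, e2.2, h5]

/-- GB2 -/
theorem sep_gb2 (hAT : ATMStmt) (hPS : PSFStmt) (hSQ : SQFStmt) (hTE : TEFStmt)
    (hVL : VLXStmt) (hGG : GGXStmt) (hEX : EXCStmt) : GB2Stmt := by
  intro M _ _ _ I B r q x i t G hI hG hc _
  have hT : TEmb (emb (PF I) G) := ggx_temb hG
  have TE := hTE M (Ext (PF I) G) _ hT
  have ps := hPS M
  have gf := hGG M I G hI hG
  obtain ⟨hCb, hClB, hBI, hSB, hrB, hnc, hqB, hNm, hTot, hFun, hi⟩ := (hAT M).sycd hI hc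
  have vl := hVL M B (prod om om) x G hNm I hG
  have hom : ∀ {a : M}, E (emb (PF I) G a) om ↔ E a om := fun {a} => by
    rw [← TE.om, hT.mem]
  have hxm : ∀ {q' a : M}, E (opair q' a) x → E q' (PS B) ∧ E a (prod om om) := by
    intro q' a h
    obtain ⟨q1, a1, h1, h2, h3⟩ := hNm.2 _ h
    rw [opair_inj] at h3
    rw [h3.1, h3.2]; exact ⟨h1, h2⟩
  refine ⟨?_, fun hq => ⟨?_, ?_⟩⟩
  · intro z hz
    obtain ⟨p, v, z0, hp, hv, hz0, e1⟩ := gf.br.1 hz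
    have hpP := mem_PS.1 (hG.sub p hp)
    exact hG.up p q hp (ps.mono hBI hqB) (hpP.2.2.2.2.2 B r q x i t v hv).1
  · refine gb_fnc hPS hSQ hTE hGG hI hG _ ?_
    intro n hn
    obtain ⟨p, hp, _, v, hv⟩ := (genF hG).meetB
      (fun s => ∃ v, E (lV (cod B r q x i t) v) s ∧ E n (dmn v)) inferInstance q hq
      (fun p hp hqp => by
        obtain ⟨p', v, hp', hpp, hv, hnv⟩ := hEX M I p B r q x i t n hI hp hc hqp hn
        exact ⟨p', hp', hpp, v, hv, hnv⟩)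
    exact ⟨p, v, hp, hv.1, hv.2⟩
  · intro n a h
    obtain ⟨p, v, z, hp, hv, hz, e1⟩ := gf.br.1 h
    have hpP := mem_PS.1 (hG.sub p hp)
    obtain ⟨hd, hF⟩ := (hSQ M).dm (ps.lVm (hG.sub p hp) hv).2
    obtain ⟨n0, a1, hn, ha, rfl⟩ := hF.1 z hz
    obtain ⟨a0, c', c, ha0, hc', hcc, rfl, ⟨q', hq', hqx⟩, v', hv', hnv'⟩ :=
      (hpP.2.2.2.2.2 B r q x i t v hv).2 n0 a1 hz
    rw [TE.opair, opair_inj] at e1
    obtain ⟨rfl, rfl⟩ := e1
    refine ⟨emb (PF I) G a0, emb (PF I) G c', emb (PF I) G c, TE.cdv, hom.2 hcc, hom.2 hc',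
      (vl _).2 ⟨q', opair n0 a0, hqx, ?_, TE.opair.symm⟩,
      gf.br.2 ⟨p, v', _, hp, hv', hnv', ?_⟩⟩
    · exact hG.up p q' hp (ps.mono hBI (hxm hqx).1) hq'
    · rw [TE.opair, TE.nonc]

/-- GB4 -/
theorem sep_gb4 (hPS : PSFStmt) (hSQ : SQFStmt) (hTE : TEFStmt) (hGG : GGXStmt)
    (hEX : EXFStmt) : GB4Stmt := by
  intro M _ _ _ I e G hI hG he _ hF
  have hT : TEmb (emb (PF I) G) := ggx_temb hG
  have TE := hTE M (Ext (PF I) G) _ hT
  have ps := hPS M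
  have sq := hSQ M
  have gf := hGG M I G hI hG
  intro z hz
  obtain ⟨z0, hz0, rfl⟩ := TE.mem'.1 hz
  obtain ⟨p, hp, j0, hj0, hf⟩ := (genF hG).meetC
    (fun q => ∃ j, E j om ∧ E (lF e z0 j) q) inferInstance
    (fun p hp => by
      obtain ⟨q, j, hq, hpq, hj, hf⟩ := hEX M I p e z0 hI hp he hz0
      exact ⟨q, hq, hpq, j, hj, hf⟩)
  refine ⟨emb (PF I) G j0, by rw [← TE.om, hT.mem]; exact hj0, ?_⟩
  intro n' hn' hjn
  obtain ⟨n, hn, rfl⟩ := gf.mo hn'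
  rw [hT.mem] at hjn
  obtain ⟨p', v, hp', hv, hnv, e1⟩ := gf.brn (e := e) hF hn
  obtain ⟨r, hr, hrp, hrp'⟩ := hG.dir p p' hp hp'
  have hrP' : E r (PS I) := hG.sub r hr
  have hrP := mem_PS.1 hrP'
  have h1 : E (lV e v) r := hrp' _ hv
  have h2 : E (lF e z0 j0) r := hrp _ hf
  obtain ⟨hs, hd⟩ := sq.rs (ps.lVm hrP' h1).2 hn hnv
  have h3 := hrP.2.2.2.1 e z0 j0 v (res v n) h2 h1 hs
    (fun w hw => (mem_res.1 hw).1) (by rw [hd]; exact hjn)
  rw [hd] at h3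
  rw [e1, ← TE.res]
  exact gf.inr.2 ⟨r, hr, h3⟩

/-- GB5 -/
theorem sep_gb5 (hPS : PSFStmt) (hSQ : SQFStmt) (hTE : TEFStmt) (hGG : GGXStmt)
    (hEX : EXNStmt) (hED : EXDStmt) : GB5Stmt := by
  intro M _ _ _ I e e' G hI hG he he' hnc hnc' hne _ heq
  have hT : TEmb (emb (PF I) G) := ggx_temb hG
  have TE := hTE M (Ext (PF I) G) _ hT
  have gf := hGG M I G hI hG
  obtain ⟨p, hp, v, v', n, c, c', hv, hv', hn, h1, h2, hcc⟩ := (genF hG).meetC
    (fun q => ∃ v v' n c c', E (lV e v) q ∧ E (lV e' v') q ∧ E n om ∧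
      E (opair n (nonc c)) v ∧ E (opair n (nonc c')) v' ∧ c ≠ c') inferInstance
    (fun p hp => by
      obtain ⟨q, v, v', n, c, c', hq, hpq, hv, hv', hn, h1, h2, h3⟩ :=
        hED M I p e e' hI hp he he' hnc hnc' hne
      exact ⟨q, hq, hpq, v, v', n, c, c', hv, hv', hn, h1, h2, h3⟩)
  have k1 : E (opair (emb (PF I) G n) (emb (PF I) G (nonc c)))
      (Br (gg I G) (emb (PF I) G e)) := gf.br.2 ⟨p, v, _, hp, hv, h1, TE.opair.symm⟩
  have k2 : E (opair (emb (PF I) G n) (emb (PF I) G (nonc c')))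
      (Br (gg I G) (emb (PF I) G e)) := by
    rw [heq]
    exact gf.br.2 ⟨p, v', _, hp, hv', h2, TE.opair.symm⟩
  have hF := (sep_gb1 hPS hSQ hTE hGG hEX M I e G hI hG he hnc).1
  have k3 := hT.inj _ _ (hF.2.2 _ _ _ k1 k2)
  unfold nonc at k3
  rw [opair_inj] at k3
  exact hcc k3.2

end SW.SEP
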