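import Pool.Agent.H63.SEP.Stmts2
import Pool.Agent.H13.MA.Lib

/-!
Project SEP, module GGX: members of the generic filter, of the generic relation, of branches.
-/

set_option autoImplicit false
set_option linter.unusedVariables false
set_option synthInstance.maxSize 100000

namespace SW.SEP

open SW

section
variable {K N : Type} [SetStr K] [ZF K] [SetStr N] [ZF N] {j : K → N}

theorem ggx_temb {M : Type} [SetStr M] [ZF M] {F : FPoset M} {G : M → Prop} (hG : Gen F G) :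
    TEmb (emb F G) where
  inj := fun x y h => ((embF hG).inj x y).1 h
  mem := (embF hG).mem
  tr := fun z x h => by
    obtain ⟨y, _, h⟩ := (embF hG).trans z x h
    exact ⟨y, h⟩

/-- the second component of a pair in the image of a transitive embedding -/
theorem ggx_snd (h : TEmb j) (hj : TEFacts j) {a b : N} {y : K} (e : j y = opair a b) :
    ∃ b', b = j b' := by
  have h1 : E (upair a b) (j y) := by rw [e]; simp [opair]
  obtain ⟨w, hw⟩ := h.tr _ _ h1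
  have h2 : E b (j w) := by rw [← hw]; simp
  exact h.tr _ _ h2

theorem ggx_fst (h : TEmb j) (hj : TEFacts j) {a b : N} {y : K} (e : j y = opair a b) :
    ∃ a', a = j a' := by
  have h1 : E (upair a b) (j y) := by rw [e]; simp [opair]
  obtain ⟨w, hw⟩ := h.tr _ _ h1
  have h2 : E a (j w) := by rw [← hw]; simp
  exact h.tr _ _ h2

theorem ggx_lV (h : TEmb j) (hj : TEFacts j) {e y : K} {v : N} (e1 : j y = lV (j e) v) :
    ∃ v', v = j v' ∧ y = lV e v' := by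
  obtain ⟨w, hw⟩ := ggx_snd h hj e1
  obtain ⟨v', hv⟩ := ggx_snd h hj hw.symm
  refine ⟨v', hv, ?_⟩
  apply h.inj
  rw [e1, hv, hj.lV]

end

theorem sep_ggx (hAT : ATMStmt) (hPS : PSFStmt) (hSQ : SQFStmt) (hTE : TEFStmt) : GGXStmt := by
  intro M _ _ _ I G hI hG _
  have hT : TEmb (emb (PF I) G) := ggx_temb hG
  have TE := hTE M (Ext (PF I) G) _ hT
  have at' := hAT M
  have ps := hPS M
  have sq := hSQ M
  have mN : ∀ {e p v x : M}, G p → E (lV e v) p → E x v → ∃ n a, E n om ∧ E a LL ∧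
      x = opair n a ∧ E n (dmn v) := by
    intro e p v x hp hv hx
    have hp' : E p (PS I) := hG.sub p hp
    have h1 := (ps.lVm hp' hv).2
    obtain ⟨h2, h3⟩ := sq.dm h1
    obtain ⟨n, a, hn, ha, rfl⟩ := h3.1 x hx
    exact ⟨n, a, Trans_om _ h2 n hn, ha, rfl, hn⟩
  have hgg : ∀ {p : Ext (PF I) G}, E p (gg I G) ↔ ∃ p0, G p0 ∧ p = emb (PF I) G p0 :=
    fun {p} => (embF hG).G_mem p
  have hbr : ∀ {e : M} {z : Ext (PF I) G}, E z (Br (SEP.gg I G) (emb (PF I) G e)) ↔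
      ∃ p v z0, G p ∧ E (lV e v) p ∧ E z0 v ∧ z = emb (PF I) G z0 := by
    intro e z
    unfold Br
    rw [mem_sep]
    constructor
    · rintro ⟨_, p, v, hp, hv, hz⟩
      obtain ⟨p0, hp0, rfl⟩ := hgg.1 hp
      obtain ⟨y, hy, e1⟩ := TE.mem'.1 hv
      obtain ⟨v', rfl, rfl⟩ := ggx_lV hT TE e1.symm
      obtain ⟨z0, hz0, rfl⟩ := TE.mem'.1 hz
      exact ⟨p0, v', z0, hp0, hy, hz0, rfl⟩
    · rintro ⟨p, v, z0, hp, hv, hz, rfl⟩
      refine ⟨?_, emb (PF I) G p, emb (PF I) G v, hgg.2 ⟨p, hp, rfl⟩, ?_, (hT.mem _ _).2 hz⟩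
      · obtain ⟨n, a, hn, ha, rfl, _⟩ := mN hp hv hz
        rw [TE.opair, mem_prod]
        refine ⟨?_, ?_⟩
        · rw [← TE.om, hT.mem]; exact hn
        · rw [← TE.LL, hT.mem]; exact ha
      · rw [← TE.lV, hT.mem]; exact hv
  have hbrs : ∀ {e p v : M}, G p → E (lV e v) p →
      Sub (emb (PF I) G v) (Br (SEP.gg I G) (emb (PF I) G e)) := by
    intro e p v hp hv z hz
    obtain ⟨z0, hz0, rfl⟩ := TE.mem'.1 hz
    exact hbr.2 ⟨p, v, z0, hp, hv, hz0, rfl⟩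
  refine ⟨hgg, ?_, hbr, hbrs, ?_, ?_⟩
  · intro s τ
    constructor
    · rintro ⟨p, hp, h⟩
      obtain ⟨p0, hp0, rfl⟩ := hgg.1 hp
      refine ⟨p0, hp0, ?_⟩
      rw [← TE.one, ← TE.gR, hT.mem] at h
      exact h
    · rintro ⟨p, hp, h⟩
      refine ⟨emb (PF I) G p, hgg.2 ⟨p, hp, rfl⟩, ?_⟩
      rw [← TE.one, ← TE.gR, hT.mem]
      exact h
  · intro e n hF hn
    have hn' : E (emb (PF I) G n) om := by rw [← TE.om, hT.mem]; exact hn
    obtain ⟨y, hy⟩ := hF.2.1 _ hn'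
    obtain ⟨p, v, z0, hp, hv, hz0, e1⟩ := hbr.1 hy
    obtain ⟨m, a, hm, ha, rfl, hmd⟩ := mN hp hv hz0
    rw [TE.opair, opair_inj] at e1
    have e2 := hT.inj _ _ e1.1
    subst e2
    have hvN := (ps.lVm (hG.sub p hp) hv).2
    obtain ⟨hd, hvF⟩ := sq.dm hvN
    have hsub : Sub n (dmn v) := fun k hk => (Ord_nat hd).trans hmd hk |> id
    refine ⟨p, v, hp, hv, hsub, ?_⟩
    rw [TE.res]
    refine ext fun z => ?_
    rw [mem_res, mem_res]
    constructor
    · rintro ⟨hz, x, y', hx, rfl⟩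
      obtain ⟨x0, hx0, rfl⟩ := TE.mem'.1 hx
      refine ⟨?_, _, _, hx, rfl⟩
      obtain ⟨y0, hy0⟩ := hvF.2.1 x0 (hsub _ hx0)
      have h2 : E (opair (emb (PF I) G x0) (emb (PF I) G y0)) (emb (PF I) G v) := by
        rw [← TE.opair, hT.mem]; exact hy0
      have h3 := hF.2.2 _ _ _ hz (hbrs hp hv _ h2)
      rw [h3]; exact h2
    · rintro ⟨hz, x, y', hx, rfl⟩
      exact ⟨hbrs hp hv _ hz, _, _, hx, rfl⟩
  · intro z hz
    rw [← TE.om] at hz
    obtain ⟨n, hn, rfl⟩ := TE.mem'.1 hz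
    exact ⟨n, hn, rfl⟩

end SW.SEP
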